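import Pool.Agent.Y920.AD.Stm2
import Pool.Agent.Helper562.Kuhn

/-! Project AD (helper920), job HEX: a discrete covering lemma from Kuhn's lemma. -/

set_option autoImplicit false

namespace Pool.Agent.Y888.AD

open Relation

theorem t_HEX : Pool.Agent.Y920.AD.S_HEX := by
  classical
  intro n m ι idx
  by_cases halt : ∃ (i : Fin n) (t : ι), ∀ k ≤ m, ∃ x : Fin n → ℕ,
      (∀ a, x a ≤ m) ∧ x i = k ∧ idx x = t
  · exact Or.inl halt
  right
  let G : (Fin n → ℕ) → Prop := fun x => ∀ a, x a ≤ m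
  let adj : (Fin n → ℕ) → (Fin n → ℕ) → Prop := fun u v =>
    G u ∧ G v ∧ (∀ a, u a ≤ v a + 1) ∧ (∀ a, v a ≤ u a + 1) ∧ idx u = idx v
  have hsymm : ∀ u v, ReflTransGen adj u v → ReflTransGen adj v u := by
    intro u v h
    induction h with
    | refl => exact ReflTransGen.refl
    | tail _ h2 ih =>
      exact ReflTransGen.head ⟨h2.2.1, h2.1, h2.2.2.2.1, h2.2.2.1, h2.2.2.2.2.symm⟩ ih
  let Q : (Fin n → ℕ) → ℕ → Prop := fun x i =>
    ∃ h : i < n, ∃ y, ReflTransGen adj x y ∧ y ⟨i, h⟩ = m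
  let lab : (Fin n → ℕ) → ℕ := fun x => if h : ∃ i, Q x i then Nat.find h else n
  have hlab_le : ∀ x i, Q x i → lab x ≤ i := by
    intro x i hi
    have hex : ∃ i, Q x i := ⟨i, hi⟩
    simp only [lab, hex, dif_pos]
    exact Nat.find_min' hex hi
  have hlab_n : ∀ x, lab x ≤ n := by
    intro x
    by_cases hex : ∃ i, Q x i
    · obtain ⟨i, hi⟩ := hex
      exact (hlab_le x i hi).trans hi.1.le
    · simp [lab, hex]
  have hlab_eq : ∀ x i, i < n → lab x = i → Q x i := by
    intro x i hi h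
    by_cases hex : ∃ i, Q x i
    · have h1 : lab x = Nat.find hex := by simp only [lab, hex, dif_pos]
      rw [← h, h1]
      exact Nat.find_spec hex
    · simp only [lab, hex, dif_neg, not_false_eq_true] at h
      omega
  have hcomp : ∀ u v, ReflTransGen adj u v → lab u = lab v := by
    intro u v h
    have hQ : Q u = Q v := by
      funext i
      apply propext
      constructor
      · rintro ⟨h1, y, h2, h3⟩
        exact ⟨h1, y, (hsymm u v h).trans h2, h3⟩
      · rintro ⟨h1, y, h2, h3⟩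
        exact ⟨h1, y, h.trans h2, h3⟩
    simp only [lab, hQ]
  let p : (ℕ → ℕ) → (Fin n → ℕ) := fun x a => min (x a) m
  have hpG : ∀ x, G (p x) := fun x a => min_le_right _ _
  -- the chain argument
  have hchain : ∀ (u : Fin n → ℕ) (i : Fin n), G u → u i = 0 → ∀ v, ReflTransGen adj u v →
      idx v = idx u ∧ ∀ k, k ≤ v i → ∃ w, G w ∧ w i = k ∧ idx w = idx u := by
    intro u i hu hui v hv
    induction hv with
    | refl =>
      refine ⟨rfl, fun k hk => ⟨u, hu, ?_, rfl⟩⟩
      omega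
    | @tail b c _ h2 ih =>
      obtain ⟨h3, h4⟩ := ih
      obtain ⟨_, g2, _, g4, g5⟩ := h2
      refine ⟨g5.symm.trans h3, fun k hk => ?_⟩
      have h5 := g4 i
      by_cases h6 : k ≤ b i
      · exact h4 k h6
      · exact ⟨c, g2, by omega, g5.symm.trans h3⟩
  obtain ⟨x, hx, hlabs⟩ := Pool.Agent.Helper562.Kuhn.kuhn n m (fun x => lab (p x))
    (fun x _ => hlab_n _)
    (by
      intro i hi x _ hxi hl
      obtain ⟨_, v, hv, hvm⟩ := hlab_eq _ i hi hl
      have h0 : p x ⟨i, hi⟩ = 0 := by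
        show min (x i) m = 0
        rw [hxi]; exact Nat.zero_min m
      obtain ⟨_, h2⟩ := hchain (p x) ⟨i, hi⟩ (hpG x) h0 v hv
      exact halt ⟨⟨i, hi⟩, idx (p x), fun k hk => by
        obtain ⟨w, hw1, hw2, hw3⟩ := h2 k (by rw [hvm]; exact hk)
        exact ⟨w, hw1, hw2, hw3⟩⟩)
    (by
      intro i hi x _ hxi
      apply hlab_le
      refine ⟨hi, p x, ReflTransGen.refl, ?_⟩
      show min (x i) m = m
      rw [hxi, min_self])
  choose! y hy1 _ hy3 using hlabs
  have hadj : ∀ (j k : Fin (n + 1)) (a : Fin n), p (y j) a ≤ p (y k) a + 1 := by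
    intro j k a
    have h1 := hx a a.2
    have h2 := hy1 j (by have := j.2; omega) a a.2
    have h3 := hy1 k (by have := k.2; omega) a a.2
    show min (y j a) m ≤ min (y k a) m + 1
    rcases h2 with h2 | h2 <;> rcases h3 with h3 | h3 <;> rw [h2, h3] <;> omega
  refine ⟨fun j => p (y j), hadj, fun j a => hpG _ a, ?_⟩
  intro j k hjk
  have h1 : ReflTransGen adj (p (y j)) (p (y k)) :=
    ReflTransGen.single ⟨hpG _, hpG _, hadj j k, hadj k j, hjk⟩
  have h2 := hcomp _ _ h1
  have h3 : lab (p (y j)) = j := hy3 j (by have := j.2; omega)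
  have h4 : lab (p (y k)) = k := hy3 k (by have := k.2; omega)
  apply Fin.ext
  rw [← h3, ← h4, h2]

end Pool.Agent.Y888.AD
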